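import Pool.Agent.Helper7.PX.Goals
import Pool.Agent.Helper88.TU.Size
import Pool.Agent.Helper88.CG.VP
import Pool.Agent.Helper33.RR.GT

/-!
# Packet KQ of project PX (MP_69be96_nt): the primes at the points of `P \ B` are killed
-/

set_option autoImplicit false

open Finset Filter Topology

open scoped Classical

namespace Pool.Agent.Helper95.PX

open Pool.Agent.Helper88.PP (pr Rg om Sf SS uu vv ee LA VV QQ cost)
open Pool.Agent.Helper88.RR (gg ab TB nz Db VM)
open Pool.Agent.Helper88.GM (NI XI In)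
open Pool.Agent.Helper88.CG (pw qE mE)
open Pool.Agent.Helper88.TU (Su)
open Pool.Agent.Helper7.PX (TE GW gw GD Bd cs cw WN DN StmtMJ StmtFD StmtFC StmtTL StmtKQ)
open Pool.Agent.Helper33.RR (Db_zero Db_le Db_nonneg om_nonneg)

theorem XI_nonneg (u v Q : ℕ) : 0 ≤ XI u v Q := by
  unfold XI
  positivity

/-- `E^2 exp (-cE)` is small -/
theorem small_exp (c δ : ℝ) (hc : 0 < c) (hδ : 0 < δ) : ∃ E0 : ℕ, ∀ E : ℕ, E0 ≤ E →
    (E : ℝ) ^ 2 * Real.exp (-(c * E)) ≤ δ := by
  have hN : Tendsto (fun E : ℕ => (E : ℝ)) atTop atTop := tendsto_natCast_atTop_atTop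
  have e1 : Tendsto (fun E : ℕ => (E : ℝ) ^ 2 * Real.exp (-(c * E))) atTop (𝓝 0) := by
    have h := Real.tendsto_pow_mul_exp_neg_atTop_nhds_zero 2
    have h2 : Tendsto (fun u : ℝ => (1 / c ^ 2) * ((c * u) ^ 2 * Real.exp (-(c * u)))) atTop
        (𝓝 ((1 / c ^ 2) * 0)) := by
      refine Tendsto.const_mul _ ?_
      exact h.comp (Tendsto.const_mul_atTop hc tendsto_id)
    rw [mul_zero] at h2
    refine (h2.comp hN).congr fun E => ?_
    simp only [Function.comp]
    field_simp
  obtain ⟨E1, hE1⟩ := eventually_atTop.1 (e1.eventually (gt_mem_nhds hδ))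
  exact ⟨E1, fun E hE => (hE1 E hE).le⟩

/-- the coefficients at a prime `n + h`, `h ∉ B` -/
theorem coeff (hFC : StmtFC) {E z : ℕ} {P B : Finset ℕ} {t : ℝ} {h : P} {r : P → ℕ} (ht : 0 ≤ t)
    (hm : 1 ≤ mE E) (hz : 2 ≤ z) (hV : VV z (mE E) (qE E * mE E) ≠ 0) (hr : r ∈ TE E z P)
    (hB : (h : ℕ) ∉ B) :
    Helper7.PX.fold E z h (cw E z B t) r =
      (if r h = 0 then Db (mE E) (qE E) (E / 16) z (cost z r) else 0) * cw E z B t r := by
  by_cases h0 : r h = 0
  · rw [(hFC E z P B t h r ht hm hz hV hr).1 h0, if_pos h0]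
    have : cs B t (h : ℕ) = -1 := by rw [cs, if_neg hB]
    rw [this]
    ring
  · rw [if_neg h0, zero_mul, Helper7.PX.fold, if_neg h0]

/-- the sum over the primes, point by point -/
theorem swap (N S : Finset ℕ) (f : ℕ → ℝ) :
    ∑ n ∈ N, f n * ((S.filter (fun h => (n + h).Prime)).card : ℝ) =
      ∑ h ∈ S, ∑ n ∈ N.filter (fun n => (n + h).Prime), f n := by
  simp_rw [Finset.sum_filter]
  rw [Finset.sum_comm]
  refine Finset.sum_congr rfl fun n _ => ?_
  rw [← Finset.sum_filter, Finset.sum_const, nsmul_eq_mul, mul_comm]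

theorem kq (hMJ : StmtMJ) (hFD : StmtFD) (hFC : StmtFC) (hTL : StmtTL) :
    Pool.Agent.Helper7.PX.StmtKQ := by
  obtain ⟨c, C, hc, hC, hMJ⟩ := hMJ
  obtain ⟨cK, hcK, hcK1, hTL⟩ := hTL
  obtain ⟨c1, hc1, EV, hVP⟩ := Pool.Agent.Helper88.CG.vp
  obtain ⟨EZ, hZ⟩ := Pool.Agent.Helper88.TU.size
  refine ⟨cK, hcK, hcK1, fun t ht η hη => ?_⟩
  obtain ⟨EJ, hMJ⟩ := hMJ t ht
  obtain ⟨ET, hTL⟩ := hTL t ht (η / (2 * C)) (by positivity)
  obtain ⟨E2, hE2⟩ := small_exp c (η / (2 * C)) hc (by positivity)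
  refine ⟨max (max (max EJ ET) EZ) (max (max EV E2) 300), ?_⟩
  intro E z x y hE hSr b hb P B hP hBP hPo
  have hEEJ : EJ ≤ E := le_trans (le_trans (le_trans (le_max_left _ _) (le_max_left _ _))
    (le_max_left _ _)) hE
  have hEET : ET ≤ E := le_trans (le_trans (le_trans (le_max_right _ _) (le_max_left _ _))
    (le_max_left _ _)) hE
  have hEEZ : EZ ≤ E := le_trans (le_trans (le_max_right _ _) (le_max_left _ _)) hE
  have hEEV : EV ≤ E := le_trans (le_trans (le_trans (le_max_left _ _) (le_max_left _ _))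
    (le_max_right _ _)) hE
  have hEE2 : E2 ≤ E := le_trans (le_trans (le_trans (le_max_right _ _) (le_max_left _ _))
    (le_max_right _ _)) hE
  have hE300 : 300 ≤ E := le_trans (le_trans (le_max_right _ _) (le_max_right _ _)) hE
  have s2 := hE2 E hEE2
  obtain ⟨v1, v2, v3, v4, v5, v6⟩ := hVP E hEEV
  obtain ⟨a1, a2, a3, a4, a5, a6, a7, a8, a9, a10, a11, a12, a13, a14⟩ := hZ E z x y hEEZ hSr
  have hq1 : 1 ≤ qE E := by rw [qE]; exact Nat.one_le_two_pow
  have hqm : qE E * mE E ≤ E / 16 := by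
    refine le_trans (Nat.mul_le_mul_right _ ?_) v2
    nlinarith
  have hEr : (300 : ℝ) ≤ E := by exact_mod_cast hE300
  have hEpos : (0 : ℝ) < E := by linarith
  have hx1 : z ^ E ≤ x := hSr.2.1
  have hz2 : 2 ≤ z := by omega
  obtain ⟨hV1, hVlog⟩ := v6 z hz2
  have hV0 : VV z (mE E) (qE E * mE E) ≠ 0 := by linarith
  have hom := om_nonneg y z
  have hEy : E ≤ y := le_trans (Nat.le_self_pow (by norm_num) E) a6
  obtain ⟨hD1, hBd, hgw, htail⟩ := hTL E z y hEET hz2 hEy P B hP hBP hPo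
  have hPo2 : (P.card : ℝ) * om y z ≤ (E : ℝ) ^ 2 := by
    have h0 : (P.card : ℝ) * om y z ≤ ((P.card : ℝ) + t ^ 2 * B.card) * om y z := by
      apply mul_le_mul_of_nonneg_right _ hom
      have : (0 : ℝ) ≤ t ^ 2 * B.card := by positivity
      linarith
    refine (h0.trans hPo).trans ?_
    have h1 : Real.log E ≤ E := Real.log_le_self hEpos.le
    have h2 : 0 ≤ Real.log E := Real.log_nonneg (by linarith)
    calc cK * (E * Real.log E) ≤ 1 * (E * E) := by
          apply mul_le_mul hcK1 _ (by positivity) (by norm_num)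
          exact mul_le_mul_of_nonneg_left h1 hEpos.le
      _ = (E : ℝ) ^ 2 := by ring
  set Sig := ∑ r ∈ (TE E z P).filter (fun r => E / 16 < cost z r + qE E * mE E),
    gw y z (cw E z B t) r with hSig
  have hSig0 : 0 ≤ Sig := Finset.sum_nonneg fun r hr => hgw r (Finset.mem_filter.mp hr).1
  have hX0 : 0 ≤ XI (x / 32) x (QQ x) := XI_nonneg _ _ _
  have hzn : z ^ (E / 16) * 32 ≤ x := by
    refine le_trans ?_ hx1
    calc z ^ (E / 16) * 32 = z ^ (E / 16) * 2 ^ 5 := by norm_num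
      _ ≤ z ^ (E / 16) * z ^ 5 := Nat.mul_le_mul_left _ (Nat.pow_le_pow_left hz2 5)
      _ = z ^ (E / 16 + 5) := (pow_add _ _ _).symm
      _ ≤ z ^ E := Nat.pow_le_pow_right (by omega) (by omega)
  -- one point
  have hone : ∀ h ∈ P \ B,
      ∑ n ∈ (NI (x / 32) x (QQ x) b).filter (fun n => (n + h).Prime), WN E z y B t P n ^ 2
        ≤ C * XI (x / 32) x (QQ x) * (om y z / E) * (Sig + Real.exp (-(c * E))) := by
    intro h hh
    obtain ⟨hhP, hhB⟩ := Finset.mem_sdiff.mp hh
    set hs : P := ⟨h, hhP⟩ with hhs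
    have hco : ∀ r ∈ TE E z P, Helper7.PX.fold E z hs (cw E z B t) r =
        (if r hs = 0 then Db (mE E) (qE E) (E / 16) z (cost z r) else 0) * cw E z B t r :=
      fun r hr => coeff hFC (by linarith) v1 hz2 hV0 hr hhB
    have hd : ∀ r : P → ℕ,
        0 ≤ (if r hs = 0 then Db (mE E) (qE E) (E / 16) z (cost z r) else 0) ∧
        (if r hs = 0 then Db (mE E) (qE E) (E / 16) z (cost z r) else 0) ≤ 1 := by
      intro r
      split_ifs
      · exact ⟨Db_nonneg _ _ _ _ _, Db_le _ _ _ _ _ hV0⟩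
      · exact ⟨le_rfl, zero_le_one⟩
    have hBd' : Bd E z t (Helper7.PX.fold E z hs (cw E z B t)) := by
      intro r hr
      rw [hco r hr, abs_mul, abs_of_nonneg (hd r).1]
      exact (mul_le_of_le_one_left (abs_nonneg _) (hd r).2).trans (hBd r hr)
    have hJ := hMJ E z x y hEEJ hSr b hb P hP hPo2 {hs} (by simp) (Helper7.PX.fold E z hs (cw E z B t)) hBd'
      (by
        intro r hr hi
        obtain ⟨i, hi1, hi2⟩ := hi
        rw [Finset.mem_singleton] at hi1
        subst hi1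
        rw [Helper7.PX.fold, if_neg hi2])
    have hGD : GD E z y (Helper7.PX.fold E z hs (cw E z B t)) ≤ Sig := by
      rw [hSig, GD, Finset.sum_filter]
      refine Finset.sum_le_sum fun r hr => ?_
      have hg := hgw r hr
      have heq : gw y z (Helper7.PX.fold E z hs (cw E z B t)) r =
          (if r hs = 0 then Db (mE E) (qE E) (E / 16) z (cost z r) else 0) ^ 2 *
            gw y z (cw E z B t) r := by
        rw [gw, hco r hr, gw]
        ring
      rw [heq]
      split_ifs with hlt hlt2 h0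
      · exact mul_le_of_le_one_left hg (pow_le_one₀ (Db_nonneg _ _ _ _ _) (Db_le _ _ _ _ _ hV0))
      · rw [Db_zero _ _ _ _ _ hz2 (by omega)]
        simp
      · simpa using hg
      · simp
    have hsub : ∑ n ∈ (NI (x / 32) x (QQ x) b).filter (fun n => (n + h).Prime),
        WN E z y B t P n ^ 2 =
        ∑ n ∈ (NI (x / 32) x (QQ x) b).filter (fun n => ∀ i ∈ ({hs} : Finset P),
          (n + (i : ℕ)).Prime), GW E z y (Helper7.PX.fold E z hs (cw E z B t)) n ^ 2 := by
      have hfil : (NI (x / 32) x (QQ x) b).filter (fun n => ∀ i ∈ ({hs} : Finset P),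
          (n + (i : ℕ)).Prime) = (NI (x / 32) x (QQ x) b).filter (fun n => (n + h).Prime) := by
        ext n
        simp [hhs]
      rw [hfil]
      refine Finset.sum_congr rfl fun n hn => ?_
      obtain ⟨hn1, hn2⟩ := Finset.mem_filter.mp hn
      have hn3 : x / 32 < n := (Finset.mem_Ioc.mp (Finset.mem_filter.mp hn1).1).1
      rw [WN, hFD E z y P hs n (cw E z B t) v3 v1 hz2 hqm hn2 (by omega)]
    rw [hsub]
    refine hJ.trans ?_
    rw [Finset.card_singleton, pow_one]
    have : 0 ≤ C * XI (x / 32) x (QQ x) * (om y z / E) := by positivity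
    exact mul_le_mul_of_nonneg_left (by linarith) this
  -- sum over the points
  have hswap : ∑ n ∈ NI (x / 32) x (QQ x) b,
      WN E z y B t P n ^ 2 * (((P \ B).filter (fun h => (n + h).Prime)).card : ℝ) =
      ∑ h ∈ P \ B, ∑ n ∈ (NI (x / 32) x (QQ x) b).filter (fun n => (n + h).Prime),
        WN E z y B t P n ^ 2 := swap _ _ _
  rw [hswap]
  refine (Finset.sum_le_sum hone).trans ?_
  rw [Finset.sum_const, nsmul_eq_mul]
  have hcard : (((P \ B).card : ℕ) : ℝ) ≤ P.card := by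
    exact_mod_cast Finset.card_le_card Finset.sdiff_subset
  have hexp : 0 < Real.exp (-(c * E)) := Real.exp_pos _
  have hb0 : 0 ≤ C * XI (x / 32) x (QQ x) * (om y z / E) * (Sig + Real.exp (-(c * E))) := by
    have : 0 ≤ Sig + Real.exp (-(c * E)) := by linarith
    positivity
  refine (mul_le_mul_of_nonneg_right hcard hb0).trans ?_
  have hD0 : 0 < DN E z y B t P := by linarith
  have k1 : (E : ℝ) ^ 2 * (Sig + Real.exp (-(c * E))) ≤ η / C * DN E z y B t P := by
    have h1 : (E : ℝ) ^ 2 * Real.exp (-(c * E)) ≤ η / (2 * C) * DN E z y B t P :=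
      s2.trans (le_mul_of_one_le_right (by positivity) hD1)
    have h2 : η / C = η / (2 * C) + η / (2 * C) := by
      field_simp
      ring
    rw [h2, mul_add, add_mul]
    exact add_le_add htail h1
  have k2 : (P.card : ℝ) * om y z / E * (Sig + Real.exp (-(c * E)))
      ≤ (E : ℝ) ^ 2 * (Sig + Real.exp (-(c * E))) := by
    apply mul_le_mul_of_nonneg_right _ (by linarith)
    rw [div_le_iff₀ hEpos]
    calc (P.card : ℝ) * om y z ≤ (E : ℝ) ^ 2 := hPo2
      _ ≤ (E : ℝ) ^ 2 * E := le_mul_of_one_le_right (by positivity) (by linarith)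
  calc (P.card : ℝ) * (C * XI (x / 32) x (QQ x) * (om y z / E) * (Sig + Real.exp (-(c * E))))
      = C * XI (x / 32) x (QQ x) *
          ((P.card : ℝ) * om y z / E * (Sig + Real.exp (-(c * E)))) := by ring
    _ ≤ C * XI (x / 32) x (QQ x) * (η / C * DN E z y B t P) :=
        mul_le_mul_of_nonneg_left (k2.trans k1) (by positivity)
    _ = η * (XI (x / 32) x (QQ x) * DN E z y B t P) := by
        field_simp

end Pool.Agent.Helper95.PX
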